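import Pool.Agent.Lib.MP_c89be3_co.Cl.Defs

namespace Pool.Agent.Spl

open Finset

namespace BrAx

variable {V : Type}

theorem dg_coe (H : SimpleGraph V) (v : V) (S : Finset V) :
    dg H v S = {w | w ∈ S ∧ H.Adj v w}.ncard := by
  classical
  unfold dg
  rw [← Set.ncard_coe_finset]
  congr 1
  ext w
  simp

theorem dg_compl (G : SimpleGraph V) {v : V} {S : Finset V} (hv : v ∈ S) :
    dg G v S + dg Gᶜ v S + 1 = #S := by
  classical
  have h1 : (∑ w ∈ S, if v = w then 1 else 0) = 1 := by simp [hv]
  have h2 : ∑ w ∈ S, ((if G.Adj v w then 1 else 0) + (if Gᶜ.Adj v w then 1 else 0) +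
      (if v = w then 1 else 0)) = ∑ _w ∈ S, 1 := sum_congr rfl fun w _ => by
    by_cases a : v = w
    · subst a
      simp
    · by_cases b : G.Adj v w <;> simp [a, b, SimpleGraph.compl_adj]
  rw [sum_add_distrib, sum_add_distrib, h1, ← dg_eq_sum, ← dg_eq_sum, ← card_eq_sum_ones] at h2
  exact h2

end BrAx

open BrAx

theorem bra_st : BrASt := by
  intro V _ _ G n
  classical
  refine ⟨⟨?_, ?_⟩, ?_⟩
  · rintro ⟨B, D, h1, ⟨c⟩, h2⟩
    have key : ∀ S : Finset V, (∀ v ∈ S, ∀ w ∈ S, c v = c w) →
        ∀ v ∈ S, #S ≤ n + dg Gᶜ v S := by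
      intro S hS v hv
      have k := dg_compl G hv
      have k2 : dg G v S ≤ (D.neighborSet v).ncard := by
        rw [dg_coe]
        refine Set.ncard_le_ncard (fun w hw => ?_) (Set.toFinite _)
        have : s(v, w) ∈ B.edgeSet ∪ D.edgeSet := h1 ▸ (G.mem_edgeSet.2 hw.2)
        rcases this with h | h
        · exact absurd (hS v hv w hw.1) (c.valid h)
        · exact h
      have := h2 v
      omega
    refine ⟨univ.filter fun v => c v = 0, key _ fun v hv w hw => ?_, key _ fun v hv w hw => ?_⟩
    · rw [(mem_filter.1 hv).2, (mem_filter.1 hw).2]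
    · have a : c v ≠ 0 := by simpa using hv
      have b : c w ≠ 0 := by simpa using hw
      exact (Fin.eq_one_of_ne_zero _ a).trans (Fin.eq_one_of_ne_zero _ b).symm
  · rintro ⟨A, h1, h2⟩
    let D : SimpleGraph V := G ⊓ SimpleGraph.fromRel fun v w => (v ∈ A ↔ w ∈ A)
    have hD : ∀ v w, D.Adj v w ↔ G.Adj v w ∧ (v ∈ A ↔ w ∈ A) := fun v w => by
      simp only [D, SimpleGraph.inf_adj, SimpleGraph.fromRel_adj]
      exact ⟨fun k => ⟨k.1, k.2.2.elim id Iff.symm⟩, fun k => ⟨k.1, k.1.ne, Or.inl k.2⟩⟩
    refine ⟨G \ D, D, ?_, ⟨SimpleGraph.Coloring.mk (fun v => if v ∈ A then 0 else 1) ?_⟩,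
      fun v => ?_⟩
    · rw [← SimpleGraph.edgeSet_sup, sdiff_sup_cancel inf_le_left]
    · intro v w k
      rw [SimpleGraph.sdiff_adj, hD] at k
      by_cases a : v ∈ A <;> by_cases b : w ∈ A <;> simp_all
    · by_cases a : v ∈ A
      · have k := dg_compl G a
        have k2 := h1 v a
        have e : (D.neighborSet v).ncard = dg G v A := by
          rw [dg_coe]
          congr 1
          ext w
          simp [hD, a, and_comm]
        omega
      · have k := dg_compl G (mem_compl.2 a)
        have k2 := h2 v (mem_compl.2 a)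
        have e : (D.neighborSet v).ncard = dg G v Aᶜ := by
          rw [dg_coe]
          congr 1
          ext w
          simp [hD, a, and_comm]
        omega
  · have e1 : tw G univ = 2 * G.edgeSet.ncard := by
      rw [← SimpleGraph.coe_edgeFinset, Set.ncard_coe_finset, ← G.sum_degrees_eq_twice_card_edges]
      refine sum_congr rfl fun v _ => ?_
      rw [dg_coe, ← SimpleGraph.card_neighborFinset_eq_degree, ← Set.ncard_coe_finset]
      congr 1
      ext w
      simp
    have e2 : ∑ v : V, (dg G v univ + dg Gᶜ v univ + 1) = ∑ _v : V, #(univ : Finset V) :=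
      sum_congr rfl fun v _ => dg_compl G (mem_univ v)
    rw [sum_add_distrib, sum_add_distrib] at e2
    simp only [sum_const, card_univ, smul_eq_mul, mul_one] at e2
    unfold tw at *
    omega

end Pool.Agent.Spl
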