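import Pool.Agent.Lib.MP_c89be3_co.Cl.Defs

namespace Pool.Agent.Spl

theorem brb_st : BrBSt := by
  intro V V' _ _ f G n
  constructor
  · rw [SimpleGraph.edgeSet_map]
    exact Set.ncard_image_of_injective _ (Sym2.map.injective f.injective)
  · rintro ⟨B, D, hE, hB, hD⟩
    refine ⟨B.comap f, D.comap f, ?_, ?_, fun v => ?_⟩
    · ext e
      induction e using Sym2.ind with
      | _ a b =>
        have h1 : s(f a, f b) ∈ (G.map f).edgeSet ↔ s(f a, f b) ∈ B.edgeSet ∪ D.edgeSet := by
          rw [hE]
        simp only [Set.mem_union, SimpleGraph.mem_edgeSet, SimpleGraph.comap_adj] at h1 ⊢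
        rw [← h1, SimpleGraph.map_adj_apply]
    · exact SimpleGraph.Colorable.of_hom (SimpleGraph.Hom.comap f B) hB
    · refine lt_of_le_of_lt ?_ (hD (f v))
      exact Set.ncard_le_ncard_of_injOn f (fun a ha => ha) f.injective.injOn (Set.toFinite _)

end Pool.Agent.Spl
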