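import Mathlib

/-! Splitting a graph on `2n + k` vertices: definitions and statements of the steps. -/

namespace Pool.Agent.Spl

open Finset

section
variable {V : Type}

open Classical in
/-- Number of neighbours of `v` in `S`. -/
noncomputable def dg (H : SimpleGraph V) (v : V) (S : Finset V) : ℕ := #(S.filter (H.Adj v))

/-- Twice the number of edges inside `S`. -/
noncomputable def tw (H : SimpleGraph V) (S : Finset V) : ℕ := ∑ v ∈ S, dg H v S

/-- A good partition, read in the complement graph `H`. -/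
def Sp [Fintype V] [DecidableEq V] (H : SimpleGraph V) (n : ℕ) : Prop :=
  ∃ A : Finset V, (∀ v ∈ A, #A ≤ n + dg H v A) ∧ ∀ v ∈ Aᶜ, #Aᶜ ≤ n + dg H v Aᶜ

/-- The property of the problem. -/
def Split (G : SimpleGraph V) (n : ℕ) : Prop :=
  ∃ B D : SimpleGraph V, G.edgeSet = B.edgeSet ∪ D.edgeSet ∧ B.IsBipartite ∧
    ∀ v, (D.neighborSet v).ncard < n

/-- No set of `n + 2` vertices has minimum degree at least two. -/
def No2 (H : SimpleGraph V) (n : ℕ) : Prop :=
  ∀ B : Finset V, #B = n + 2 → ¬ ∀ v ∈ B, 2 ≤ dg H v B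

theorem dg_mono (H : SimpleGraph V) (v : V) {S T : Finset V} (h : S ⊆ T) :
    dg H v S ≤ dg H v T := by
  classical
  exact card_le_card (filter_subset_filter _ h)

theorem dg_union [DecidableEq V] (H : SimpleGraph V) (v : V) {S T : Finset V}
    (h : Disjoint S T) : dg H v (S ∪ T) = dg H v S + dg H v T := by
  classical
  unfold dg
  rw [filter_union, card_union_of_disjoint (disjoint_filter_filter h)]

theorem dg_eq_sum (H : SimpleGraph V) (v : V) (S : Finset V) [DecidableRel H.Adj] :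
    dg H v S = ∑ w ∈ S, if H.Adj v w then 1 else 0 := by
  unfold dg
  rw [card_filter]
  exact sum_congr rfl fun w _ => by congr

theorem sum_dg_comm (H : SimpleGraph V) (S T : Finset V) :
    ∑ v ∈ S, dg H v T = ∑ w ∈ T, dg H w S := by
  classical
  simp only [dg_eq_sum]
  rw [sum_comm]
  exact sum_congr rfl fun w _ => sum_congr rfl fun v _ => by simp only [H.adj_comm]

theorem tw_union [DecidableEq V] (H : SimpleGraph V) {S T : Finset V} (h : Disjoint S T) :
    tw H (S ∪ T) = tw H S + tw H T + 2 * ∑ v ∈ S, dg H v T := by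
  unfold tw
  rw [sum_union h]
  simp only [dg_union H _ h, sum_add_distrib]
  rw [sum_dg_comm H T S]
  ring

theorem dg_self_le [DecidableEq V] (H : SimpleGraph V) {v : V} {S : Finset V} (hv : v ∈ S) :
    dg H v S + 1 ≤ #S := by
  classical
  have : S.filter (H.Adj v) ⊆ S.erase v := fun w hw => by
    rw [mem_filter] at hw
    exact mem_erase.2 ⟨hw.2.ne', hw.1⟩
  have h1 := card_le_card this
  rw [card_erase_of_mem hv] at h1
  have h2 := card_pos.2 ⟨v, hv⟩
  unfold dg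
  omega

theorem tw_singleton (H : SimpleGraph V) (v : V) : tw H {v} = 0 := by
  classical
  have := dg_self_le H (mem_singleton_self v)
  rw [card_singleton] at this
  unfold tw
  rw [sum_singleton]
  omega

theorem tw_even (H : SimpleGraph V) (S : Finset V) : Even (tw H S) := by
  classical
  induction S using Finset.induction_on with
  | empty => simp [tw]
  | insert v S hv ih =>
    rw [insert_eq, tw_union H (disjoint_singleton_left.2 hv), tw_singleton]
    exact ((Even.zero).add ih).add (even_two_mul _)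

theorem tw_le (H : SimpleGraph V) (S : Finset V) : tw H S + #S ≤ #S * #S := by
  classical
  have : ∑ v ∈ S, (dg H v S + 1) ≤ ∑ _v ∈ S, #S := sum_le_sum fun v hv => dg_self_le H hv
  simpa [sum_add_distrib, tw] using this

theorem two_le_dg (H : SimpleGraph V) {v a b : V} {S : Finset V} (ha : a ∈ S) (hb : b ∈ S)
    (hab : a ≠ b) (h1 : H.Adj v a) (h2 : H.Adj v b) : 2 ≤ dg H v S := by
  classical
  exact one_lt_card.2 ⟨a, mem_filter.2 ⟨ha, h1⟩, b, mem_filter.2 ⟨hb, h2⟩, hab⟩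

theorem exists_two (H : SimpleGraph V) {v : V} {S : Finset V} (h : 2 ≤ dg H v S) :
    ∃ a ∈ S, ∃ b ∈ S, a ≠ b ∧ H.Adj v a ∧ H.Adj v b := by
  classical
  obtain ⟨a, ha, b, hb, hab⟩ := one_lt_card.1 h
  exact ⟨a, (mem_filter.1 ha).1, b, (mem_filter.1 hb).1, hab, (mem_filter.1 ha).2,
    (mem_filter.1 hb).2⟩

theorem dg_pos (H : SimpleGraph V) {v : V} {S : Finset V} :
    0 < dg H v S ↔ ∃ a ∈ S, H.Adj v a := by
  classical
  unfold dg
  rw [card_pos]
  exact ⟨fun ⟨a, ha⟩ => ⟨a, (mem_filter.1 ha).1, (mem_filter.1 ha).2⟩,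
    fun ⟨a, h1, h2⟩ => ⟨a, mem_filter.2 ⟨h1, h2⟩⟩⟩

end

/-- Small doubly dominating set. -/
def DomSt : Prop := ∀ (V : Type) [DecidableEq V] (H : SimpleGraph V) (D : Finset V) (d t : ℕ),
  0 < d → (∀ v ∈ D, 2 * d ≤ dg H v D) →
  ∃ X ⊆ D, (∀ v ∈ D, 2 ≤ dg H v X) ∧ #X * (d * t) ≤ t * (d * t) + 2 * #D * #D

/-- Peeling to a core over a fixed set `W`. -/
def PeelSt : Prop := ∀ (V : Type) [DecidableEq V] (H : SimpleGraph V) (S W : Finset V) (d : ℕ),
  Disjoint S W → ∃ C ⊆ S, (∀ v ∈ C, d < dg H v (C ∪ W)) ∧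
    tw H (S ∪ W) + 2 * d * #C ≤ tw H (C ∪ W) + 2 * d * #S

/-- Two surplus edges give a short closed set. -/
def ParSt : Prop := ∀ (V : Type) [DecidableEq V] (H : SimpleGraph V) (U W : Finset V),
  Disjoint U W → (∀ u ∈ U, dg H u W ≤ 1) → tw H W + 2 * (#U + 2) ≤ tw H (U ∪ W) →
  ∃ E ⊆ U, ∃ T ⊆ W, E.Nonempty ∧ (∀ v ∈ E, 2 ≤ dg H v (E ∪ T)) ∧ 9 * (#E + #T) ≤ 8 * (#U + 2)

/-- Stability: a clique on `n + 1` vertices. -/
def StabSt : Prop := ∃ n₀ : ℕ, ∀ n, n₀ ≤ n → ∀ (V : Type) [Fintype V] [DecidableEq V]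
  (H : SimpleGraph V), Fintype.card V = 2 * n + 2 → (n + 1) * n + 2 * (n + 2) ≤ tw H univ →
  No2 H n → ∃ W : Finset V, #W = n + 1 ∧ (∀ a ∈ W, ∀ b ∈ W, a ≠ b → H.Adj a b) ∧
    tw H univ = (n + 1) * n + 2 * (n + 2)

/-- The balanced split. -/
def FinSt : Prop := ∀ n, 100 ≤ n → ∀ (V : Type) [Fintype V] [DecidableEq V]
  (H : SimpleGraph V) (W : Finset V), Fintype.card V = 2 * n + 2 → #W = n + 1 →
  (∀ a ∈ W, ∀ b ∈ W, a ≠ b → H.Adj a b) → tw H univ = (n + 1) * n + 2 * (n + 2) →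
  No2 H n → Sp H n

/-- The spider example. -/
def NegSt : Prop := ∀ n, 100 ≤ n → ∃ (V : Type) (_ : Fintype V) (_ : DecidableEq V)
  (H : SimpleGraph V), Fintype.card V = 2 * n + 3 ∧
    tw H univ = (n + 2) * (n + 1) + 2 * (2 * n + 3) ∧ ¬ Sp H n

/-- Passage to the complement. -/
def BrASt : Prop := ∀ (V : Type) [Fintype V] [DecidableEq V] (G : SimpleGraph V) (n : ℕ),
  (Split G n ↔ Sp Gᶜ n) ∧
    tw Gᶜ univ + 2 * G.edgeSet.ncard + Fintype.card V = Fintype.card V * Fintype.card V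

/-- Adding isolated vertices. -/
def BrBSt : Prop := ∀ (V V' : Type) [Finite V] [Finite V'] (f : V ↪ V') (G : SimpleGraph V)
  (n : ℕ), (G.map f).edgeSet.ncard = G.edgeSet.ncard ∧ (Split (G.map f) n → Split G n)

end Pool.Agent.Spl
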