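import Pool.Agent.Lib.MP_c89be3_co.Cl.Defs

/-! A small doubly dominating set. -/

namespace Pool.Agent.Spl

open Finset

namespace Domx

variable {V ι : Type} [DecidableEq V]

theorem hit (I : Finset ι) (N : ι → Finset V) (D : Finset V) (d : ℕ)
    (hN : ∀ i ∈ I, N i ⊆ D ∧ d ≤ #(N i)) (t : ℕ) :
    ∃ X ⊆ D, #X ≤ t ∧ #(I.filter fun i => Disjoint (N i) X) * (#D + d * t) ≤ #I * #D := by
  classical
  induction t with
  | zero =>
    refine ⟨∅, empty_subset _, by simp, ?_⟩
    simp
  | succ t ih =>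
    obtain ⟨X, hX, hc, hu⟩ := ih
    set M := I.filter fun i => Disjoint (N i) X with hM
    rcases D.eq_empty_or_nonempty with hD | hD
    · refine ⟨X, hX, by omega, ?_⟩
      rcases Nat.eq_zero_or_pos d with h0 | h0
      · simpa [h0] using hu
      · have : M = ∅ := by
          refine eq_empty_of_forall_notMem fun i hi => ?_
          have h1 := hN i (mem_filter.1 hi).1
          have h2 := card_le_card h1.1
          rw [hD, card_empty] at h2
          omega
        rw [← hM, this]
        simp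
    · have hs : ∑ x ∈ D, #(M.filter fun i => x ∈ N i) = ∑ i ∈ M, #(N i) := by
        simp only [card_filter]
        rw [sum_comm]
        refine sum_congr rfl fun i hi => ?_
        rw [← card_filter, filter_mem_eq_inter, inter_eq_right.2 (hN i (mem_filter.1 hi).1).1]
      have h1 : ∑ _x ∈ D, #M * d ≤ ∑ x ∈ D, #(M.filter fun i => x ∈ N i) * #D := by
        rw [sum_const, smul_eq_mul, ← sum_mul, hs, mul_comm]
        refine Nat.mul_le_mul_right _ ?_
        have : ∑ _i ∈ M, d ≤ ∑ i ∈ M, #(N i) :=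
          sum_le_sum fun i hi => (hN i (mem_filter.1 hi).1).2
        simpa using this
      obtain ⟨x, hx, hcx⟩ := exists_le_of_sum_le hD h1
      refine ⟨insert x X, insert_subset hx hX, (card_insert_le _ _).trans (by omega), ?_⟩
      set M' := I.filter fun i => Disjoint (N i) (insert x X) with hM'
      have h2 : #M' + #(M.filter fun i => x ∈ N i) ≤ #M := by
        rw [← card_union_of_disjoint]
        · refine card_le_card (union_subset (fun i hi => ?_) (filter_subset _ _))
          rw [mem_filter] at hi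
          exact mem_filter.2 ⟨hi.1, hi.2.mono_right (subset_insert _ _)⟩
        · refine disjoint_left.2 fun i hi hj => ?_
          exact disjoint_left.1 (mem_filter.1 hi).2 (mem_filter.1 hj).2 (mem_insert_self _ _)
      generalize #(M.filter fun i => x ∈ N i) = c at hcx h2
      generalize #M' = u' at h2
      generalize #M = u at hcx h2 hu
      generalize #D = m at hcx hu
      have h3 : u' * d ≤ u * d := Nat.mul_le_mul_right _ (by omega)
      have h4 : c * m ≤ c * (m + d * t) := Nat.mul_le_mul_left _ (by omega)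
      have h5 : (u' + c) * (m + d * t) ≤ u * (m + d * t) := Nat.mul_le_mul_right _ h2
      have h6 : u' * (m + d * (t + 1)) = u' * (m + d * t) + u' * d := by ring
      rw [add_mul] at h5
      omega

theorem all (I : Finset ι) (N : ι → Finset V) (D : Finset V) (d : ℕ) (hd : 0 < d)
    (hN : ∀ i ∈ I, N i ⊆ D ∧ d ≤ #(N i)) (t : ℕ) :
    ∃ X ⊆ D, (∀ i ∈ I, ∃ x ∈ X, x ∈ N i) ∧ #X * (d * t) ≤ t * (d * t) + #I * #D := by
  classical
  obtain ⟨X, hX, hc, hu⟩ := hit I N D d hN t
  set M := I.filter fun i => Disjoint (N i) X with hM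
  have hne : ∀ i : M, ∃ x, x ∈ N i := fun i =>
    card_pos.1 (lt_of_lt_of_le hd (hN i (mem_filter.1 i.2).1).2)
  choose f hf using hne
  refine ⟨X ∪ M.attach.image f, union_subset hX fun x hx => ?_, fun i hi => ?_, ?_⟩
  · obtain ⟨i, -, rfl⟩ := mem_image.1 hx
    exact (hN i (mem_filter.1 i.2).1).1 (hf i)
  · by_cases h : Disjoint (N i) X
    · exact ⟨f ⟨i, mem_filter.2 ⟨hi, h⟩⟩, mem_union_right _ (mem_image_of_mem _ (mem_attach _ _)),
        hf ⟨i, mem_filter.2 ⟨hi, h⟩⟩⟩
    · obtain ⟨x, h1, h2⟩ := not_disjoint_iff.1 h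
      exact ⟨x, mem_union_left _ h2, h1⟩
  · have h1 : #(X ∪ M.attach.image f) ≤ t + #M := by
      have h2 := card_union_le X (M.attach.image f)
      have h3 : #(M.attach.image f) ≤ #M := card_image_le.trans card_attach.le
      omega
    have h4 : #M * (d * t) ≤ #M * (#D + d * t) := Nat.mul_le_mul_left _ (by omega)
    have h5 := Nat.mul_le_mul_right (d * t) h1
    rw [add_mul] at h5
    omega

end Domx

theorem dom_st : DomSt := by
  intro V _ H D d t hd h
  classical
  have hex : ∀ v : V, ∃ P Q : Finset V, v ∈ D → (P ⊆ D.filter (H.Adj v) ∧ #P = d) ∧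
      (Q ⊆ D.filter (H.Adj v) ∧ #Q = d) ∧ Disjoint P Q := by
    intro v
    by_cases hv : v ∈ D
    · have h1 : 2 * d ≤ #(D.filter (H.Adj v)) := by
        have := h v hv
        unfold dg at this
        convert this
      obtain ⟨P, hP, hPc⟩ := exists_subset_card_eq (s := D.filter (H.Adj v)) (n := d) (by omega)
      obtain ⟨Q, hQ, hQc⟩ := exists_subset_card_eq (s := D.filter (H.Adj v) \ P) (n := d) (by
        rw [card_sdiff_of_subset hP]; omega)
      exact ⟨P, Q, fun _ => ⟨⟨hP, hPc⟩, ⟨hQ.trans sdiff_subset, hQc⟩,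
        disjoint_sdiff.mono_right hQ⟩⟩
    · exact ⟨∅, ∅, fun h => absurd h hv⟩
  choose P Q hPQ using hex
  obtain ⟨X, hX, h1, h2⟩ := Domx.all (D ×ˢ (univ : Finset Bool))
    (fun i => if i.2 then P i.1 else Q i.1) D d hd (by
      rintro ⟨v, b⟩ hi
      obtain ⟨⟨a1, a2⟩, ⟨a3, a4⟩, -⟩ := hPQ v (mem_product.1 hi).1
      cases b
      · exact ⟨a3.trans (filter_subset _ _), a4.ge⟩
      · exact ⟨a1.trans (filter_subset _ _), a2.ge⟩) t
  refine ⟨X, hX, fun v hv => ?_, ?_⟩
  · obtain ⟨⟨a1, -⟩, ⟨a3, -⟩, a5⟩ := hPQ v hv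
    obtain ⟨x, hx, hx'⟩ := h1 (v, true) (mem_product.2 ⟨hv, mem_univ _⟩)
    obtain ⟨y, hy, hy'⟩ := h1 (v, false) (mem_product.2 ⟨hv, mem_univ _⟩)
    have hxP : x ∈ P v := hx'
    have hyQ : y ∈ Q v := hy'
    exact two_le_dg H hx hy (fun e => disjoint_left.1 a5 hxP (e ▸ hyQ))
      (mem_filter.1 (a1 hxP)).2 (mem_filter.1 (a3 hyQ)).2
  · rw [card_product, card_univ, Fintype.card_bool] at h2
    calc _ ≤ _ := h2
      _ = _ := by ring

end Pool.Agent.Spl
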