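import Pool.Agent.Lib.MP_c89be3_co.Cl.Defs

/-! The balanced split. -/

namespace Pool.Agent.Spl

open Finset

namespace Finx

variable {V : Type} {H : SimpleGraph V}

open Classical in
/-- neighbours of `v` in `S` -/
noncomputable def nbr (H : SimpleGraph V) (v : V) (S : Finset V) : Finset V := S.filter (H.Adj v)

theorem mem_nbr {v w : V} {S : Finset V} : w ∈ nbr H v S ↔ w ∈ S ∧ H.Adj v w := by
  classical
  unfold nbr
  exact mem_filter

theorem card_nbr (v : V) (S : Finset V) : #(nbr H v S) = dg H v S := rfl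

variable [DecidableEq V]

theorem dg_clique {W R : Finset V} (hW : ∀ a ∈ W, ∀ b ∈ W, a ≠ b → H.Adj a b) (hR : R ⊆ W)
    {v : V} (hv : v ∈ R) : dg H v R + 1 = #R := by
  have h : nbr H v R = R.erase v := by
    ext w
    rw [mem_nbr, mem_erase]
    exact ⟨fun k => ⟨k.2.ne', k.1⟩, fun k => ⟨k.2, hW v (hR hv) w (hR k.2) k.1.symm⟩⟩
  rw [← card_nbr, h, card_erase_add_one hv]

variable [Fintype V] {n : ℕ} {W : Finset V}

theorem no_closed (hc : #W = n + 1) (hW : ∀ a ∈ W, ∀ b ∈ W, a ≠ b → H.Adj a b) (hN : No2 H n)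
    {E T : Finset V} (hE : E ⊆ Wᶜ) (hT : T ⊆ W) (hne : E.Nonempty)
    (hd : ∀ v ∈ E, 2 ≤ dg H v (E ∪ T)) (h1 : #E + #T ≤ n + 2) (h2 : #E + 1 ≤ n) : False := by
  have h0 := card_pos.2 hne
  obtain ⟨R, r1, r2, r3⟩ := exists_subsuperset_card_eq (n := n + 2 - #E) hT (by omega) (by omega)
  have hdis : Disjoint E R := disjoint_left.2 fun x hx hx' => mem_compl.1 (hE hx) (r2 hx')
  refine hN (E ∪ R) (by rw [card_union_of_disjoint hdis]; omega) fun v hv => ?_
  rcases mem_union.1 hv with k | k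
  · exact (hd v k).trans (dg_mono H v (union_subset_union_right r1))
  · have k1 := dg_clique hW r2 k
    have k2 := dg_mono H v (subset_union_right (s₁ := E) (s₂ := R))
    omega

theorem no_tri (hn : 100 ≤ n) (hc : #W = n + 1) (hW : ∀ a ∈ W, ∀ b ∈ W, a ≠ b → H.Adj a b)
    (hN : No2 H n) {x y z : V} (hx : x ∈ Wᶜ) (hy : y ∈ Wᶜ) (hz : z ∈ Wᶜ) (h1 : H.Adj x y)
    (h2 : H.Adj y z) (h3 : H.Adj x z) : False := by
  have c : #({x, y, z} : Finset V) ≤ 3 := card_le_three
  refine no_closed hc hW hN (E := {x, y, z}) (T := ∅) ?_ (empty_subset _) (insert_nonempty _ _)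
    ?_ (by rw [card_empty]; omega) (by omega)
  · intro v hv
    simp only [mem_insert, mem_singleton] at hv
    rcases hv with rfl | rfl | rfl <;> assumption
  · intro v hv
    rw [union_empty]
    have mx : x ∈ ({x, y, z} : Finset V) := by simp
    have my : y ∈ ({x, y, z} : Finset V) := by simp
    have mz : z ∈ ({x, y, z} : Finset V) := by simp
    simp only [mem_insert, mem_singleton] at hv
    rcases hv with e | e | e <;> rw [e]
    · exact two_le_dg H my mz h2.ne h1 h3
    · exact two_le_dg H mx mz h3.ne h1.symm h2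
    · exact two_le_dg H mx my h1.ne h3.symm h2.symm

theorem no_quad (hn : 100 ≤ n) (hc : #W = n + 1) (hW : ∀ a ∈ W, ∀ b ∈ W, a ≠ b → H.Adj a b)
    (hN : No2 H n) {x y z w : V} (hx : x ∈ Wᶜ) (hy : y ∈ Wᶜ) (hz : z ∈ Wᶜ) (hw : w ∈ Wᶜ)
    (hxz : x ≠ z) (hyw : y ≠ w) (h1 : H.Adj x y) (h2 : H.Adj y z) (h3 : H.Adj z w)
    (h4 : H.Adj x w) : False := by
  have c : #({x, y, z, w} : Finset V) ≤ 4 := card_le_four
  refine no_closed hc hW hN (E := {x, y, z, w}) (T := ∅) ?_ (empty_subset _) (insert_nonempty _ _)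
    ?_ (by rw [card_empty]; omega) (by omega)
  · intro v hv
    simp only [mem_insert, mem_singleton] at hv
    rcases hv with rfl | rfl | rfl | rfl <;> assumption
  · intro v hv
    rw [union_empty]
    have mx : x ∈ ({x, y, z, w} : Finset V) := by simp
    have my : y ∈ ({x, y, z, w} : Finset V) := by simp
    have mz : z ∈ ({x, y, z, w} : Finset V) := by simp
    have mw : w ∈ ({x, y, z, w} : Finset V) := by simp
    simp only [mem_insert, mem_singleton] at hv
    rcases hv with e | e | e | e <;> rw [e]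
    · exact two_le_dg H my mw hyw h1 h4
    · exact two_le_dg H mx mz hxz h1.symm h2
    · exact two_le_dg H my mw hyw h2.symm h3
    · exact two_le_dg H mx mz hxz h4.symm h3.symm

theorem one_W (hn : 100 ≤ n) (hc : #W = n + 1) (hW : ∀ a ∈ W, ∀ b ∈ W, a ≠ b → H.Adj a b)
    (hN : No2 H n) {u : V} (hu : u ∈ Wᶜ) : dg H u W ≤ 1 := by
  by_contra h
  obtain ⟨a, ha, b, hb, hab, h1, h2⟩ := exists_two H (show 2 ≤ dg H u W by omega)
  have c : #({a, b} : Finset V) ≤ 2 := card_le_two
  refine no_closed hc hW hN (E := {u}) (T := {a, b}) (singleton_subset_iff.2 hu)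
    (insert_subset ha (singleton_subset_iff.2 hb)) (singleton_nonempty u) (fun v hv => ?_)
    (by rw [card_singleton]; omega) (by rw [card_singleton]; omega)
  rw [mem_singleton.1 hv]
  exact two_le_dg H (by simp) (by simp) hab h1 h2

theorem sparse (hQ : ParSt) (hn : 100 ≤ n) (hV : Fintype.card V = 2 * n + 2) (hc : #W = n + 1)
    (hW : ∀ a ∈ W, ∀ b ∈ W, a ≠ b → H.Adj a b) (hN : No2 H n) {U : Finset V} (hU : U ⊆ Wᶜ) :
    tw H (U ∪ W) ≤ tw H W + 2 * #U + 2 := by
  by_contra h
  obtain ⟨p, hp⟩ := tw_even H (U ∪ W)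
  obtain ⟨q, hq⟩ := tw_even H W
  have hU' : #U ≤ n + 1 := by
    have h1 := card_le_card hU
    rw [card_compl] at h1
    omega
  obtain ⟨E, e1, T, e2, e3, e4, e5⟩ := hQ V H U W
    (disjoint_left.2 fun x hx hx' => mem_compl.1 (hU hx) hx')
    (fun u hu => one_W hn hc hW hN (hU hu)) (by omega)
  exact no_closed hc hW hN (e1.trans hU) e2 e3 e4 (by omega) (by omega)

end Finx

open Finx in
theorem fin_st (hP : PeelSt) (hQ : ParSt) : FinSt := by
  intro n hn V _ _ H W hV hc hW ht hN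
  have cU : #Wᶜ = n + 1 := by rw [card_compl]; omega
  have tW : tw H W = (n + 1) * n := by
    unfold tw
    rw [sum_congr rfl (g := fun _ => n) fun v hv => by
      have := dg_clique hW (Subset.refl W) hv
      omega, sum_const, hc, smul_eq_mul]
  have hun : Wᶜ ∪ W = univ := by rw [union_comm, union_compl]
  have tU : tw H (Wᶜ ∪ W) = tw H W + 2 * (n + 2) := by rw [hun, ht, tW]
  have nb : ∀ u ∈ Wᶜ, ∃ y, H.Adj u y := by
    intro u hu
    have h1 := sparse hQ hn hV hc hW hN (erase_subset u Wᶜ)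
    have h2 := card_erase_add_one hu
    have h3 : Wᶜ ∪ W = {u} ∪ (Wᶜ.erase u ∪ W) := by
      rw [← union_assoc, ← insert_eq, insert_erase hu]
    have h4 : Disjoint ({u} : Finset V) (Wᶜ.erase u ∪ W) := by
      rw [disjoint_singleton_left, mem_union, not_or]
      exact ⟨notMem_erase _ _, mem_compl.1 hu⟩
    have h5 := tw_union H h4
    rw [← h3, tw_singleton, sum_singleton] at h5
    obtain ⟨y, -, hy⟩ := (dg_pos H).1 (show 0 < dg H u (Wᶜ.erase u ∪ W) by omega)
    exact ⟨y, hy⟩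
  obtain ⟨C, c1, c2, c3⟩ := hP V H Wᶜ W 1 disjoint_compl_left
  have c4 := sparse hQ hn hV hc hW hN c1
  have dC : Disjoint C W := disjoint_left.2 fun x hx hx' => mem_compl.1 (c1 hx) hx'
  have c5 := tw_union H dC
  obtain ⟨r, hr⟩ : ∃ r, r = ∑ v ∈ C, dg H v W := ⟨_, rfl⟩
  have c6 : ∑ v ∈ C, dg H v (C ∪ W) = tw H C + r := by
    rw [hr, tw, ← sum_add_distrib]
    exact sum_congr rfl fun v _ => dg_union H v dC
  have c7 : #C * 2 ≤ ∑ v ∈ C, dg H v (C ∪ W) := by
    have := card_nsmul_le_sum C (fun v => dg H v (C ∪ W)) 2 fun v hv => c2 v hv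
    rwa [smul_eq_mul] at this
  rw [← hr] at c5
  have r2 : r ≤ 2 := by omega
  have cne : C.Nonempty := by
    rw [nonempty_iff_ne_empty]
    rintro rfl
    rw [empty_union, card_empty] at c3
    omega
  obtain ⟨T, hT⟩ : ∃ T, T = C.biUnion fun v => nbr H v W := ⟨_, rfl⟩
  have t1 : #T ≤ r := by rw [hT, hr]; exact card_biUnion_le
  have t2 : T ⊆ W := by
    intro x hx
    rw [hT] at hx
    obtain ⟨v, -, hv⟩ := mem_biUnion.1 hx
    exact (mem_nbr.1 hv).1
  have t3 : ∀ v ∈ C, ∀ x ∈ W, H.Adj v x → x ∈ T := fun v hv x hx h => by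
    rw [hT]; exact mem_biUnion.2 ⟨v, hv, mem_nbr.2 ⟨hx, h⟩⟩
  have cn : n ≤ #C := by
    by_contra h
    refine no_closed hc hW hN c1 t2 cne (fun v hv => ?_) (by omega) (by omega)
    obtain ⟨p, hp, q, hq, hpq, h1, h2⟩ := exists_two H (show 2 ≤ dg H v (C ∪ W) from c2 v hv)
    exact two_le_dg H
      (mem_union.2 ((mem_union.1 hp).imp_right fun k => t3 v hv p k h1))
      (mem_union.2 ((mem_union.1 hq).imp_right fun k => t3 v hv q k h2)) hpq h1 h2
  have d4 : ∀ v ∈ C, dg H v (C ∪ W) ≤ 4 := by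
    intro v hv
    have h1 := add_sum_erase C (fun v => dg H v (C ∪ W)) hv
    have h2 := card_nsmul_le_sum (C.erase v) (fun v => dg H v (C ∪ W)) 2
      fun w hw => c2 w (mem_of_mem_erase hw)
    rw [smul_eq_mul] at h2
    have h3 := card_erase_add_one hv
    omega
  have : Nonempty V := ⟨cne.choose⟩
  obtain ⟨z, hz⟩ : ∃ z, Wᶜ \ C ⊆ {z} := by
    refine card_le_one_iff_subset_singleton.1 ?_
    rw [card_sdiff_of_subset c1]
    omega
  obtain ⟨y, hy⟩ : ∃ y, z ∈ Wᶜ → H.Adj z y := by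
    by_cases h : z ∈ Wᶜ
    · obtain ⟨y, hy⟩ := nb z h
      exact ⟨y, fun _ => hy⟩
    · exact ⟨z, fun k => absurd k h⟩
  have hCz : ∀ v ∈ Wᶜ, v ∈ C ∨ v = z := fun v hv => by
    by_cases h : v ∈ C
    · exact Or.inl h
    · exact Or.inr (mem_singleton.1 (hz (mem_sdiff.2 ⟨hv, h⟩)))
  obtain ⟨W2, w1, w2, w3⟩ : ∃ W2, T ∪ W.filter (· = y) ⊆ W2 ∧ W2 ⊆ W ∧ #W2 = 3 := by
    refine exists_subsuperset_card_eq (union_subset t2 (filter_subset _ _)) ?_ (by omega)
    have h1 : #(W.filter (· = y)) ≤ 1 :=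
      card_le_one.2 fun p hp q hq => (mem_filter.1 hp).2.trans (mem_filter.1 hq).2.symm
    have h2 := card_union_le T (W.filter (· = y))
    omega
  obtain ⟨X, x1, x2⟩ : ∃ X : Finset V, #X ≤ 4 ∧ ∀ b ∈ C, b ∉ X → y ∈ C → ¬ H.Adj y b := by
    by_cases h : y ∈ C
    · refine ⟨nbr H y C, ?_, fun b hb hb' _ k => hb' (mem_nbr.2 ⟨hb, k⟩)⟩
      rw [card_nbr]
      exact (dg_mono H y subset_union_left).trans (d4 y h)
    · exact ⟨∅, by simp, fun _ _ _ k => absurd k h⟩
  have x3 : #(C.filter fun v => 0 < dg H v W) ≤ r := by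
    rw [hr, card_eq_sum_ones]
    exact (sum_le_sum fun v hv => (mem_filter.1 hv).2).trans
      (sum_le_sum_of_subset (filter_subset _ _))
  obtain ⟨b, hb, hb'⟩ := exists_mem_notMem_of_card_lt_card
    (s := insert y (X ∪ C.filter fun v => 0 < dg H v W)) (t := C) (by
      have h1 := card_insert_le y (X ∪ C.filter fun v => 0 < dg H v W)
      have h2 := card_union_le X (C.filter fun v => 0 < dg H v W)
      omega)
  rw [mem_insert, mem_union, not_or, not_or] at hb'
  obtain ⟨b1, b2, b3⟩ := hb'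
  have b4 : 2 ≤ dg H b C := by
    have h1 := c2 b hb
    have h2 := dg_union H b dC
    have h3 : ¬ 0 < dg H b W := fun k => b3 (mem_filter.2 ⟨hb, k⟩)
    omega
  obtain ⟨a, ha, c, hc', hac, hba, hbc⟩ := exists_two H b4
  have hA : ∀ v, v ∈ ({a, b, c} : Finset V) ∪ (W \ W2) ↔
      (v = a ∨ v = b ∨ v = c) ∨ (v ∈ W ∧ v ∉ W2) := fun v => by
    rw [mem_union, mem_insert, mem_insert, mem_singleton, mem_sdiff]
  have nW : ∀ v ∈ W, ¬ (v = a ∨ v = b ∨ v = c) := by
    rintro v hv (e | e | e) <;> rw [e] at hv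
    · exact mem_compl.1 (c1 ha) hv
    · exact mem_compl.1 (c1 hb) hv
    · exact mem_compl.1 (c1 hc') hv
  have cD : #(W \ W2) + 3 = n + 1 := by rw [card_sdiff_of_subset w2]; omega
  have cA : #(({a, b, c} : Finset V) ∪ (W \ W2)) = n + 1 := by
    rw [card_union_of_disjoint, card_eq_three.2 ⟨a, b, c, hba.ne', hac, hbc.ne, rfl⟩]
    · omega
    · refine disjoint_left.2 fun v hv hv' => nW v (mem_sdiff.1 hv').1 ?_
      rwa [mem_insert, mem_insert, mem_singleton] at hv
  have m2 : ∀ w ∈ W2, w ∈ (({a, b, c} : Finset V) ∪ (W \ W2))ᶜ := fun w hw =>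
    mem_compl.2 fun k => ((hA w).1 k).elim (nW w (w2 hw)) fun k => k.2 hw
  have m3 : ∀ w ∈ C, ¬ (w = a ∨ w = b ∨ w = c) → w ∈ (({a, b, c} : Finset V) ∪ (W \ W2))ᶜ :=
    fun w hw h => mem_compl.2 fun k => ((hA w).1 k).elim h fun k => mem_compl.1 (c1 hw) k.1
  refine ⟨{a, b, c} ∪ (W \ W2), fun v hv => ?_, fun v hv => ?_⟩
  · have : 0 < dg H v (({a, b, c} : Finset V) ∪ (W \ W2)) := by
      rw [dg_pos]
      rcases (hA v).1 hv with (e | e | e) | e
      · exact ⟨b, (hA b).2 (Or.inl (Or.inr (Or.inl rfl))), e ▸ hba.symm⟩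
      · exact ⟨a, (hA a).2 (Or.inl (Or.inl rfl)), e ▸ hba⟩
      · exact ⟨b, (hA b).2 (Or.inl (Or.inr (Or.inl rfl))), e ▸ hbc.symm⟩
      · obtain ⟨w, hw, hwv⟩ := exists_mem_ne (s := W \ W2) (by omega) v
        exact ⟨w, mem_union_right _ hw, hW v e.1 w (mem_sdiff.1 hw).1 hwv.symm⟩
    omega
  · have : 0 < dg H v (({a, b, c} : Finset V) ∪ (W \ W2))ᶜ := by
      rw [dg_pos]
      have h0 := mem_compl.1 hv
      rw [hA, not_or] at h0
      by_cases hvW : v ∈ W
      · obtain ⟨w, hw, hwv⟩ := exists_mem_ne (s := W2) (by omega) v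
        exact ⟨w, m2 w hw, hW v hvW w (w2 hw) hwv.symm⟩
      · have hvU : v ∈ Wᶜ := mem_compl.2 hvW
        rcases hCz v hvU with hvC | e
        · obtain ⟨p, hp, q, hq, hpq, h1, h2⟩ :=
            exists_two H (show 2 ≤ dg H v (C ∪ W) from c2 v hvC)
          rcases mem_union.1 hp with kp | kp
          · rcases mem_union.1 hq with kq | kq
            · by_cases e1 : p = a ∨ p = b ∨ p = c
              · by_cases e2 : q = a ∨ q = b ∨ q = c
                · exfalso
                  have vb : v ≠ b := fun k => h0.1 (Or.inr (Or.inl k))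
                  have T1 : H.Adj v a → H.Adj v b → False := fun k1 k2 =>
                    no_tri hn hc hW hN hvU (c1 ha) (c1 hb) k1 hba.symm k2
                  have T2 : H.Adj v b → H.Adj v c → False := fun k1 k2 =>
                    no_tri hn hc hW hN hvU (c1 hb) (c1 hc') k1 hbc k2
                  have T3 : H.Adj v a → H.Adj v c → False := fun k1 k2 =>
                    no_quad hn hc hW hN hvU (c1 ha) (c1 hb) (c1 hc') vb hac k1 hba.symm hbc k2
                  rcases e1 with e1 | e1 | e1 <;> rcases e2 with e2 | e2 | e2 <;>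
                    rw [e1] at h1 hpq <;> rw [e2] at h2 hpq
                  · exact hpq rfl
                  · exact T1 h1 h2
                  · exact T3 h1 h2
                  · exact T1 h2 h1
                  · exact hpq rfl
                  · exact T2 h1 h2
                  · exact T3 h2 h1
                  · exact T2 h2 h1
                  · exact hpq rfl
                · exact ⟨q, m3 q kq e2, h2⟩
              · exact ⟨p, m3 p kp e1, h1⟩
            · exact ⟨q, m2 q (w1 (mem_union_left _ (t3 v hvC q kq h2))), h2⟩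
          · exact ⟨p, m2 p (w1 (mem_union_left _ (t3 v hvC p kp h1))), h1⟩
        · rw [e] at hvU ⊢
          have hzy := hy hvU
          refine ⟨y, ?_, hzy⟩
          by_cases hyW : y ∈ W
          · exact m2 y (w1 (mem_union_right _ (mem_filter.2 ⟨hyW, rfl⟩)))
          · rcases hCz y (mem_compl.2 hyW) with k | k
            · have k1 := x2 b hb b2 k
              refine m3 y k ?_
              rintro (e1 | e1 | e1)
              · exact k1 (e1 ▸ hba.symm)
              · exact b1 e1.symm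
              · exact k1 (e1 ▸ hbc.symm)
            · exact absurd k.symm hzy.ne
    rw [card_compl]
    omega

end Pool.Agent.Spl
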