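import Pool.Agent.Lib.MP_c89be3_co.Cl.Defs

namespace Pool.Agent.Spl

open Finset

theorem two_choose (k : ℕ) : 2 * k.choose 2 + k = k * k := by
  induction k with
  | zero => simp
  | succ k ih =>
    rw [Nat.choose_succ_succ' k 1, Nat.choose_one_right]
    nlinarith

theorem two_e (n : ℕ) (hn : 1 ≤ n) :
    2 * ((2 * n + 1).choose 2 - n.choose 2 - 1) + 2 = 3 * (n * n) + 3 * n := by
  have h1 := two_choose (2 * n + 1)
  have h2 := two_choose n
  have h3 : (2 * n + 1) * (2 * n + 1) = 4 * (n * n) + 4 * n + 1 := by ring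
  omega

theorem sp_of_not_no2 {V : Type} [Fintype V] [DecidableEq V] (H : SimpleGraph V) (n : ℕ)
    (hc : Fintype.card V = 2 * n + 2) (h : ¬ No2 H n) : Sp H n := by
  unfold No2 at h
  push Not at h
  obtain ⟨B, hB, h2⟩ := h
  refine ⟨B, fun v hv => ?_, fun v _ => ?_⟩
  · have := h2 v hv
    omega
  · rw [card_compl, hc, hB]
    omega

theorem main (hS : StabSt) (hF : FinSt) (hN : NegSt) (hA : BrASt) (hB : BrBSt) :
    ∃ n₀ : ℕ, ∀ n, n₀ ≤ n → ∀ m, 2 * n ≤ m →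
      ((∀ G : SimpleGraph (Fin m), G.edgeSet.ncard = (2 * n + 1).choose 2 - n.choose 2 - 1 →
        Split G n) ↔ m ≤ 2 * n + 2) := by
  classical
  obtain ⟨n₀, hS⟩ := hS
  refine ⟨max n₀ 100, fun n hn m _ => ?_⟩
  have h0 : n₀ ≤ n := le_trans (le_max_left _ _) hn
  have h1 : 100 ≤ n := le_trans (le_max_right _ _) hn
  have he := two_e n (by omega)
  constructor
  · intro h
    by_contra hm
    obtain ⟨V, _, _, H, hc, htw, hns⟩ := hN n h1
    obtain ⟨f⟩ : Nonempty (V ↪ Fin m) :=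
      Function.Embedding.nonempty_of_card_le (by rw [hc, Fintype.card_fin]; omega)
    obtain ⟨a1, a2⟩ := hA V Hᶜ n
    obtain ⟨b1, b2⟩ := hB V (Fin m) f Hᶜ n
    rw [compl_compl] at a1 a2
    refine hns (a1.1 (b2 (h _ ?_)))
    rw [b1]
    rw [htw, hc] at a2
    have e1 : (n + 2) * (n + 1) = n * n + 3 * n + 2 := by ring
    have e2 : (2 * n + 3) * (2 * n + 3) = 4 * (n * n) + 12 * n + 9 := by ring
    omega
  · intro hm G hG
    let f : Fin m ↪ Fin (2 * n + 2) := Fin.castLEEmb hm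
    obtain ⟨b1, b2⟩ := hB (Fin m) (Fin (2 * n + 2)) f G n
    obtain ⟨a1, a2⟩ := hA (Fin (2 * n + 2)) (G.map f) n
    refine b2 (a1.2 ?_)
    have hc : Fintype.card (Fin (2 * n + 2)) = 2 * n + 2 := Fintype.card_fin _
    by_cases h2 : No2 (G.map f)ᶜ n
    · rw [b1, hG, hc] at a2
      have e1 : (n + 1) * n = n * n + n := by ring
      have e2 : (2 * n + 2) * (2 * n + 2) = 4 * (n * n) + 8 * n + 4 := by ring
      obtain ⟨W, w1, w2, w3⟩ := hS n h0 _ (G.map f)ᶜ hc (by omega) h2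
      exact hF n h1 _ _ W hc w1 w2 w3 h2
    · exact sp_of_not_no2 _ n hc h2

end Pool.Agent.Spl
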