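import Pool.Agent.Lib.MP_c89be3_co.Cl.Defs

/-! The spider example on `2n + 3` vertices. -/

namespace Pool.Agent.Spl

open Finset

namespace Negx

/-- Points `0, …, n-1` carry the spider, `n, …, 2n+1` a clique, `2n+2` is isolated. -/
def rel (n a b : ℕ) : Prop :=
  (n ≤ a ∧ a < b ∧ b ≤ 2 * n + 1) ∨ (a = 0 ∧ 1 ≤ b ∧ b ≤ 5) ∨ (1 ≤ a ∧ b = a + 5 ∧ b < n) ∨
    (1 ≤ a ∧ a < n ∧ b = n + a) ∨ (n ≤ a + 5 ∧ a < n ∧ b = n)

/-- The symmetric relation. -/
def ad (n a b : ℕ) : Prop := rel n a b ∨ rel n b a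

instance (n a : ℕ) : DecidablePred (ad n a) := fun b => by unfold ad rel; infer_instance

/-- The graph. -/
def gr (n : ℕ) : SimpleGraph (Fin (2 * n + 3)) where
  Adj a b := ad n a b
  symm := ⟨fun _ _ h => h.symm⟩
  loopless := ⟨fun a h => by unfold ad rel at h; omega⟩

theorem dg_eq (n : ℕ) (v : Fin (2 * n + 3)) (S : Finset (Fin (2 * n + 3))) :
    dg (gr n) v S = #((S.image Fin.val).filter (ad n v)) := by
  rw [filter_image, card_image_of_injective _ Fin.val_injective]
  unfold dg
  congr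

theorem nb_zero {n : ℕ} (hn : 100 ≤ n) (b : ℕ) : ad n 0 b ↔ b ∈ Icc 1 5 := by
  rw [mem_Icc]; unfold ad rel; omega

theorem nb_leg {n v : ℕ} (hn : 100 ≤ n) (h1 : 1 ≤ v) (h2 : v < n) (b : ℕ) :
    ad n v b ↔ b ∈ ({v - 5, min (v + 5) n, n + v} : Finset ℕ) := by
  simp only [mem_insert, mem_singleton]; unfold ad rel; omega

theorem card_leg {n v : ℕ} (h1 : 1 ≤ v) (h2 : v < n) :
    #({v - 5, min (v + 5) n, n + v} : Finset ℕ) = 3 := by
  rw [card_insert_of_notMem (by simp only [mem_insert, mem_singleton]; omega),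
    card_insert_of_notMem (by simp only [mem_singleton]; omega), card_singleton]

theorem deg {n : ℕ} (hn : 100 ≤ n) (v : ℕ) :
    #((range (2 * n + 3)).filter (ad n v)) = if v = 0 then 5 else if v < n then 3 else
      if v = n then n + 6 else if v < 2 * n then n + 2 else if v < 2 * n + 2 then n + 1 else 0 := by
  split_ifs with h1 h2 h3 h4 h5
  · have : (range (2 * n + 3)).filter (ad n v) = Icc 1 5 := by
      ext b; rw [mem_filter, mem_range, h1, nb_zero hn, mem_Icc]; omega
    rw [this, Nat.card_Icc]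
  · have : (range (2 * n + 3)).filter (ad n v) = {v - 5, min (v + 5) n, n + v} := by
      ext b
      rw [mem_filter, mem_range, nb_leg hn (by omega) h2]
      simp only [mem_insert, mem_singleton]; omega
    rw [this, card_leg (by omega) h2]
  · have : (range (2 * n + 3)).filter (ad n v) = (Icc (n - 5) (2 * n + 1)).erase n := by
      ext b; rw [mem_filter, mem_range, mem_erase, mem_Icc]; unfold ad rel; omega
    rw [this, card_erase_of_mem (by rw [mem_Icc]; omega), Nat.card_Icc]; omega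
  · have : (range (2 * n + 3)).filter (ad n v) = insert (v - n) ((Icc n (2 * n + 1)).erase v) := by
      ext b; rw [mem_filter, mem_range, mem_insert, mem_erase, mem_Icc]; unfold ad rel; omega
    rw [this, card_insert_of_notMem (by rw [mem_erase, mem_Icc]; omega),
      card_erase_of_mem (by rw [mem_Icc]; omega), Nat.card_Icc]
    omega
  · have : (range (2 * n + 3)).filter (ad n v) = (Icc n (2 * n + 1)).erase v := by
      ext b; rw [mem_filter, mem_range, mem_erase, mem_Icc]; unfold ad rel; omega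
    rw [this, card_erase_of_mem (by rw [mem_Icc]; omega), Nat.card_Icc]; omega
  · rw [card_eq_zero, filter_eq_empty_iff]
    intro b _; unfold ad rel; omega

theorem total {n : ℕ} (hn : 100 ≤ n) :
    ∑ v ∈ range (2 * n + 3), #((range (2 * n + 3)).filter (ad n v)) =
      (n + 2) * (n + 1) + 2 * (2 * n + 3) := by
  simp only [deg hn]
  have e1 : ∑ v ∈ Ico 1 n, (if v = 0 then 5 else if v < n then 3 else
      if v = n then n + 6 else if v < 2 * n then n + 2 else if v < 2 * n + 2 then n + 1 else 0) =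
      (n - 1) * 3 := by
    rw [sum_congr rfl (g := fun _ => 3) (fun v hv => by
      rw [mem_Ico] at hv; rw [if_neg (by omega), if_pos hv.2]), sum_const, Nat.card_Ico, smul_eq_mul]
  have e2 : ∑ v ∈ Ico (n + 1) (2 * n), (if v = 0 then 5 else if v < n then 3 else
      if v = n then n + 6 else if v < 2 * n then n + 2 else if v < 2 * n + 2 then n + 1 else 0) =
      (n - 1) * (n + 2) := by
    rw [sum_congr rfl (g := fun _ => n + 2) (fun v hv => by
      rw [mem_Ico] at hv
      rw [if_neg (by omega), if_neg (by omega), if_neg (by omega), if_pos hv.2]), sum_const,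
      Nat.card_Ico, smul_eq_mul, show 2 * n - (n + 1) = n - 1 by omega]
  rw [sum_range_succ, sum_range_succ, sum_range_succ,
    ← sum_range_add_sum_Ico _ (show n + 1 ≤ 2 * n by omega), e2, sum_range_succ,
    ← sum_range_add_sum_Ico _ (show 1 ≤ n by omega), e1, sum_range_one]
  rw [if_pos rfl, if_neg (by omega), if_neg (by omega), if_pos rfl, if_neg (by omega),
    if_neg (by omega), if_neg (by omega), if_neg (by omega), if_pos (by omega), if_neg (by omega),
    if_neg (by omega), if_neg (by omega), if_neg (by omega), if_pos (by omega), if_neg (by omega),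
    if_neg (by omega), if_neg (by omega), if_neg (by omega), if_neg (by omega)]
  obtain ⟨m, rfl⟩ : ∃ m, n = m + 1 := ⟨n - 1, by omega⟩
  rw [Nat.add_sub_cancel]
  ring

theorem big_side {n : ℕ} (hn : 100 ≤ n) (B : Finset ℕ) (hB : ∀ v ∈ B, v < 2 * n + 2)
    (hc : n + 3 ≤ #B) (h : ∀ v ∈ B, #B ≤ n + #(B.filter (ad n v))) : False := by
  have leg : ∀ v ∈ B, 1 ≤ v → v < n →
      #B ≤ n + 3 ∧ v - 5 ∈ B ∧ min (v + 5) n ∈ B ∧ n + v ∈ B := by
    intro v hv h1 h2
    have hs : B.filter (ad n v) ⊆ {v - 5, min (v + 5) n, n + v} := fun b hb =>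
      (nb_leg hn h1 h2 b).1 (mem_filter.1 hb).2
    have h3 := card_le_card hs
    have h4 := h v hv
    have h5 := card_leg h1 h2
    have he := eq_of_subset_of_card_le hs (by omega)
    have hm : ∀ b ∈ ({v - 5, min (v + 5) n, n + v} : Finset ℕ), b ∈ B := fun b hb => by
      rw [← he] at hb; exact (mem_filter.1 hb).1
    exact ⟨by omega, hm _ (by simp), hm _ (by simp), hm _ (by simp)⟩
  have h0 : 0 ∈ B := by
    have down : ∀ v, v ∈ B → v < n → 0 ∈ B := by
      intro v
      induction v using Nat.strong_induction_on with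
      | _ v ih =>
        intro hv h2
        rcases Nat.eq_zero_or_pos v with rfl | h1
        · exact hv
        · exact ih (v - 5) (by omega) (leg v hv h1 h2).2.1 (by omega)
    by_contra h0
    have hs : B ⊆ Ico n (2 * n + 2) := fun v hv =>
      mem_Ico.2 ⟨not_lt.1 fun h2 => h0 (down v hv h2), hB v hv⟩
    have := card_le_card hs
    rw [Nat.card_Ico] at this
    omega
  have hJ : 3 ≤ #(B.filter (ad n 0)) := by have := h 0 h0; omega
  have hJ' : ∀ j ∈ B.filter (ad n 0), j ∈ B ∧ 1 ≤ j ∧ j ≤ 5 := fun j hj =>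
    ⟨(mem_filter.1 hj).1, mem_Icc.1 ((nb_zero hn j).1 (mem_filter.1 hj).2)⟩
  obtain ⟨j0, hj0⟩ := card_pos.1 (show 0 < #(B.filter (ad n 0)) by omega)
  have hup := (leg j0 (hJ' j0 hj0).1 (hJ' j0 hj0).2.1 (by have := (hJ' j0 hj0).2.2; omega)).1
  have up : ∀ j ∈ B, 1 ≤ j → ∀ k, j + 5 * k < n → j + 5 * k ∈ B := by
    intro j hj h1 k
    induction k with
    | zero => exact fun _ => hj
    | succ k ih =>
      intro hk
      have h2 := (leg _ (ih (by omega)) (by omega) (by omega)).2.2.1
      rwa [show min (j + 5 * k + 5) n = j + 5 * (k + 1) by omega] at h2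
  have hinj := card_le_card_of_injOn (s := (B.filter (ad n 0)) ×ˢ range ((n - 1) / 5) ×ˢ range 2)
    (t := B) (fun z => if z.2.2 = 0 then z.1 + 5 * z.2.1 else n + (z.1 + 5 * z.2.1))
    (fun z hz => by
      obtain ⟨a1, a2⟩ := mem_product.1 (mem_coe.1 hz)
      have a3 := mem_range.1 (mem_product.1 a2).1
      obtain ⟨b1, b2, b3⟩ := hJ' _ a1
      have a4 := up _ b1 b2 z.2.1 (by omega)
      show (if z.2.2 = 0 then z.1 + 5 * z.2.1 else n + (z.1 + 5 * z.2.1)) ∈ B
      split_ifs
      · exact a4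
      · exact (leg _ a4 (by omega) (by omega)).2.2.2)
    (fun z hz w hw e => by
      obtain ⟨a1, a2⟩ := mem_product.1 (mem_coe.1 hz)
      obtain ⟨c1, c2⟩ := mem_product.1 (mem_coe.1 hw)
      have a3 := mem_range.1 (mem_product.1 a2).1
      have a4 := mem_range.1 (mem_product.1 a2).2
      have c3 := mem_range.1 (mem_product.1 c2).1
      have c4 := mem_range.1 (mem_product.1 c2).2
      obtain ⟨-, b2, b3⟩ := hJ' _ a1
      obtain ⟨-, d2, d3⟩ := hJ' _ c1
      have e' : (if z.2.2 = 0 then z.1 + 5 * z.2.1 else n + (z.1 + 5 * z.2.1)) =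
        if w.2.2 = 0 then w.1 + 5 * w.2.1 else n + (w.1 + 5 * w.2.1) := e
      refine Prod.ext ?_ (Prod.ext ?_ ?_) <;> split_ifs at e' <;> omega)
  rw [card_product, card_product, card_range, card_range] at hinj
  have h6 := Nat.mul_le_mul_right ((n - 1) / 5 * 2) hJ
  omega

theorem side {n : ℕ} (hn : 100 ≤ n) (A : Finset (Fin (2 * n + 3))) (hx : Fin.last _ ∈ A)
    (h1 : ∀ v ∈ A, #A ≤ n + dg (gr n) v A) (h2 : ∀ v ∈ Aᶜ, #Aᶜ ≤ n + dg (gr n) v Aᶜ) : False := by
  have h3 := h1 _ hx
  have h4 : dg (gr n) (Fin.last _) A = 0 := by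
    rw [dg_eq, card_eq_zero, filter_eq_empty_iff]
    intro b _
    rw [Fin.val_last]
    unfold ad rel; omega
  have h5 : #Aᶜ + #A = 2 * n + 3 := by rw [card_compl_add_card, Fintype.card_fin]
  have h6 : #(Aᶜ.image Fin.val) = #Aᶜ := card_image_of_injective _ Fin.val_injective
  refine big_side hn (Aᶜ.image Fin.val) ?_ (by omega) ?_
  · intro v hv
    obtain ⟨w, hw, rfl⟩ := mem_image.1 hv
    exact Fin.val_lt_last fun e => mem_compl.1 hw (e ▸ hx)
  · intro v hv
    obtain ⟨w, hw, rfl⟩ := mem_image.1 hv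
    rw [h6, ← dg_eq]
    exact h2 w hw

end Negx

open Negx in
theorem neg_st : NegSt := by
  intro n hn
  refine ⟨Fin (2 * n + 3), inferInstance, inferInstance, gr n, Fintype.card_fin _, ?_, ?_⟩
  · have hu : (univ : Finset (Fin (2 * n + 3))).image Fin.val = range (2 * n + 3) := by
      ext b
      simp only [mem_image, mem_univ, true_and, mem_range]
      exact ⟨fun ⟨a, ha⟩ => ha ▸ a.2, fun h => ⟨⟨b, h⟩, rfl⟩⟩
    unfold tw
    simp only [dg_eq, hu]
    rw [← total hn]
    exact Fin.sum_univ_eq_sum_range (fun v => #((range (2 * n + 3)).filter (ad n v))) _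
  · rintro ⟨A, h1, h2⟩
    by_cases hx : Fin.last _ ∈ A
    · exact side hn A hx h1 h2
    · exact side hn Aᶜ (mem_compl.2 hx) h2 (by rw [compl_compl]; exact h1)

end Pool.Agent.Spl
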