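import Pool.Agent.Lib.MP_c89be3_co.Cl.Defs

namespace Pool.Agent.Spl

open Finset

namespace Parx

variable {α : Type} [DecidableEq α]

/-- Points in exactly one of two sets. -/
def sd (A B : Finset α) : Finset α := (A \ B) ∪ (B \ A)

theorem mem_sd {A B : Finset α} {x : α} : x ∈ sd A B ↔ (x ∈ A ∧ x ∉ B) ∨ (x ∈ B ∧ x ∉ A) := by
  simp [sd]

theorem card_sd (A B : Finset α) : #(sd A B) + 2 * #(A ∩ B) = #A + #B := by
  have h1 := card_sdiff_add_card_inter A B
  have h2 := card_sdiff_add_card_inter B A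
  rw [inter_comm] at h2
  rw [sd, card_union_of_disjoint disjoint_sdiff_sdiff]
  omega

theorem sd_sub {A B F : Finset α} (hA : A ⊆ F) (hB : B ⊆ F) : sd A B ⊆ F :=
  union_subset (sdiff_subset.trans hA) (sdiff_subset.trans hB)

theorem sd_ne {A B : Finset α} (h : A ≠ B) : (sd A B).Nonempty := by
  by_contra hn
  refine h (Finset.ext fun x => ?_)
  have : x ∉ sd A B := fun hx => hn ⟨x, hx⟩
  rw [mem_sd] at this
  tauto

theorem card_ite {S F : Finset α} (h : S ⊆ F) : #S = ∑ e ∈ F, if e ∈ S then 1 else 0 := by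
  rw [← card_filter, filter_mem_eq_inter, inter_eq_right.2 h]

theorem three {A B C F : Finset α} (hA : A ⊆ F) (hB : B ⊆ F) (hC : C ⊆ F) :
    #(sd A B) + #(sd A C) + #(sd B C) ≤ 2 * #F := by
  rw [card_ite (sd_sub hA hB), card_ite (sd_sub hA hC), card_ite (sd_sub hB hC),
    ← sum_add_distrib, ← sum_add_distrib, mul_comm]
  refine sum_le_card_nsmul _ _ 2 fun e _ => ?_
  simp only [mem_sd]
  by_cases h1 : e ∈ A <;> by_cases h2 : e ∈ B <;> by_cases h3 : e ∈ C <;> simp [h1, h2, h3]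

theorem exists_even {β : Type} [DecidableEq β] (U : Finset β) (F : Finset α) (p : β → α → Prop)
    [∀ u, DecidablePred (p u)] (hF : #F = #U + 2) :
    ∃ Z ⊆ F, Z.Nonempty ∧ (∀ u ∈ U, Even #(Z.filter (p u))) ∧ 3 * #Z ≤ 2 * (#U + 2) := by
  obtain ⟨y, -, hy⟩ := exists_lt_card_fiber_of_mul_lt_card_of_maps_to (s := F.powerset)
    (t := U.powerset) (n := 2) (f := fun Z => U.filter fun u => Even #(Z.filter (p u)))
    (fun Z _ => mem_powerset.2 (filter_subset _ _))
    (by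
      rw [card_powerset, card_powerset, hF, pow_add]
      have : 0 < 2 ^ #U := Nat.two_pow_pos _
      omega)
  have key : ∀ A ∈ F.powerset.filter fun Z => (U.filter fun u => Even #(Z.filter (p u))) = y,
      ∀ B ∈ F.powerset.filter fun Z => (U.filter fun u => Even #(Z.filter (p u))) = y,
      ∀ u ∈ U, Even #((sd A B).filter (p u)) := by
    intro A hA B hB u hu
    have e : (sd A B).filter (p u) = sd (A.filter (p u)) (B.filter (p u)) := by
      ext x
      simp only [mem_filter, mem_sd]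
      tauto
    have h1 := card_sd (A.filter (p u)) (B.filter (p u))
    have h2 := Finset.ext_iff.1 ((mem_filter.1 hA).2.trans (mem_filter.1 hB).2.symm) u
    simp only [mem_filter, hu, true_and, Nat.even_iff] at h2
    rw [e, Nat.even_iff]
    omega
  obtain ⟨A, B, C, hA, hB, hC, h1, h2, h3⟩ := two_lt_card_iff.1 hy
  have sA := mem_powerset.1 (mem_filter.1 hA).1
  have sB := mem_powerset.1 (mem_filter.1 hB).1
  have sC := mem_powerset.1 (mem_filter.1 hC).1
  have h4 := three sA sB sC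
  by_cases c1 : 3 * #(sd A B) ≤ 2 * (#U + 2)
  · exact ⟨_, sd_sub sA sB, sd_ne h1, key A hA B hB, c1⟩
  by_cases c2 : 3 * #(sd A C) ≤ 2 * (#U + 2)
  · exact ⟨_, sd_sub sA sC, sd_ne h2, key A hA C hC, c2⟩
  · exact ⟨_, sd_sub sB sC, sd_ne h3, key B hB C hC, by omega⟩

omit [DecidableEq α] in
theorem sum_dg (H : SimpleGraph α) [DecidableRel H.Adj] (S T : Finset α) :
    ∑ v ∈ S, dg H v T = #((S ×ˢ T).filter fun e => H.Adj e.1 e.2) := by
  rw [card_filter, sum_product]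
  exact sum_congr rfl fun v _ => dg_eq_sum H v T

theorem exists_edges (H : SimpleGraph α) (U W : Finset α) (hd : Disjoint U W)
    (h : tw H W + 2 * (#U + 2) ≤ tw H (U ∪ W)) :
    ∃ F : Finset (α × α), #F = #U + 2 ∧ ∀ e ∈ F, e.1 ∈ U ∧ H.Adj e.1 e.2 ∧
      (e.2 ∈ W ∨ (e.2 ∈ U ∧ WellOrderingRel e.1 e.2)) := by
  classical
  let F1 := (U ×ˢ U).filter fun e => H.Adj e.1 e.2 ∧ WellOrderingRel e.1 e.2
  let F2 := (U ×ˢ W).filter fun e => H.Adj e.1 e.2
  have h1 : tw H U ≤ #F1 + #F1 := by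
    rw [tw, sum_dg]
    refine (card_le_card (t := F1 ∪ F1.image Prod.swap) ?_).trans
      ((card_union_le _ _).trans (Nat.add_le_add_left card_image_le _))
    rintro ⟨u, v⟩ he
    obtain ⟨h2, h3⟩ := mem_filter.1 he
    rcases trichotomous_of WellOrderingRel u v with h4 | h4 | h4
    · exact mem_union_left _ (mem_filter.2 ⟨h2, h3, h4⟩)
    · exact (h3.ne h4).elim
    · exact mem_union_right _ (mem_image.2 ⟨(v, u), mem_filter.2
        ⟨mem_product.2 ⟨(mem_product.1 h2).2, (mem_product.1 h2).1⟩, h3.symm, h4⟩, rfl⟩)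
  have h2 : Disjoint F1 F2 := disjoint_left.2 fun e h1 h2 =>
    disjoint_left.1 hd (mem_product.1 (mem_filter.1 h1).1).2 (mem_product.1 (mem_filter.1 h2).1).2
  rw [tw_union H hd, sum_dg] at h
  obtain ⟨F, hF, hc⟩ := exists_subset_card_eq (s := F1 ∪ F2) (n := #U + 2) (by
    rw [card_union_of_disjoint h2]
    change _ + 2 * _ ≤ _ + _ + 2 * #F2 at h
    omega)
  refine ⟨F, hc, fun e he => ?_⟩
  rcases mem_union.1 (hF he) with h3 | h3
  · obtain ⟨h4, h5, h6⟩ := mem_filter.1 h3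
    exact ⟨(mem_product.1 h4).1, h5, Or.inr ⟨(mem_product.1 h4).2, h6⟩⟩
  · obtain ⟨h4, h5⟩ := mem_filter.1 h3
    exact ⟨(mem_product.1 h4).1, h5, Or.inl (mem_product.1 h4).2⟩

end Parx

open Parx in
theorem par_st : ParSt := by
  intro V _ H U W hd h1 h
  obtain ⟨F, hF, hp⟩ := exists_edges H U W hd h
  obtain ⟨Z, hZ, hne, hev, hc⟩ := exists_even U F (fun u e => e.1 = u ∨ e.2 = u) hF
  have hUW : ∀ x ∈ U, x ∉ W := fun x hx => disjoint_left.1 hd hx
  obtain ⟨E, hE⟩ : ∃ E : Finset V, ∀ v, v ∈ E ↔ v ∈ U ∧ ∃ e ∈ Z, e.1 = v ∨ e.2 = v :=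
    ⟨U.filter fun v => ∃ e ∈ Z, e.1 = v ∨ e.2 = v, fun _ => mem_filter⟩
  have e1 : ∀ e ∈ Z, e.1 ∈ E := fun e he => (hE _).2 ⟨(hp e (hZ he)).1, e, he, Or.inl rfl⟩
  have h2 : ∀ v ∈ E, 2 ≤ #(Z.filter fun e => e.1 = v ∨ e.2 = v) := fun v hv => by
    obtain ⟨hu, e, he, h⟩ := (hE v).1 hv
    have h3 : 0 < #(Z.filter fun e => e.1 = v ∨ e.2 = v) :=
      card_pos.2 ⟨e, mem_filter.2 ⟨he, h⟩⟩
    have h4 := Nat.even_iff.1 (hev v hu)
    omega
  refine ⟨E, fun v hv => ((hE v).1 hv).1, (Z.filter fun e => e.2 ∈ W).image Prod.snd, ?_, ?_, ?_, ?_⟩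
  · intro w hw
    obtain ⟨e, he, rfl⟩ := mem_image.1 hw
    exact (mem_filter.1 he).2
  · obtain ⟨e, he⟩ := hne
    exact ⟨_, e1 e he⟩
  · intro v hv
    have key : ∀ e ∈ Z.filter fun e => e.1 = v ∨ e.2 = v,
        ∃ a ∈ E ∪ (Z.filter fun e => e.2 ∈ W).image Prod.snd,
          H.Adj v a ∧ (e = (v, a) ∨ e = (a, v)) := by
      rintro ⟨x, y⟩ he0
      have he := (mem_filter.1 he0).1
      have hv0 : x = v ∨ y = v := (mem_filter.1 he0).2
      clear he0
      rcases hv0 with rfl | rfl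
      · obtain ⟨-, h3, h4 | h4⟩ := hp _ (hZ he)
        · exact ⟨y, mem_union_right _ (mem_image.2 ⟨_, mem_filter.2 ⟨he, h4⟩, rfl⟩), h3, Or.inl rfl⟩
        · exact ⟨y, mem_union_left _ ((hE y).2 ⟨h4.1, _, he, Or.inr rfl⟩), h3, Or.inl rfl⟩
      · exact ⟨x, mem_union_left _ (e1 _ he), (hp _ (hZ he)).2.1.symm, Or.inr rfl⟩
    have asy : ∀ x y, (x, y) ∈ Z → (y, x) ∈ Z → False := fun x y hxy hyx => by
      obtain ⟨a1, -, a2⟩ := hp _ (hZ hxy)
      obtain ⟨b1, -, b2⟩ := hp _ (hZ hyx)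
      exact asymm_of WellOrderingRel (a2.resolve_left (hUW _ b1)).2 (b2.resolve_left (hUW _ a1)).2
    obtain ⟨e, he, e', he', hee⟩ := one_lt_card.1 (h2 v hv)
    obtain ⟨a, ha, ha1, ha2⟩ := key e he
    obtain ⟨b, hb, hb1, hb2⟩ := key e' he'
    refine two_le_dg H ha hb ?_ ha1 hb1
    rintro rfl
    rcases ha2 with rfl | rfl <;> rcases hb2 with rfl | rfl
    · exact hee rfl
    · exact asy _ _ (mem_filter.1 he).1 (mem_filter.1 he').1
    · exact asy _ _ (mem_filter.1 he).1 (mem_filter.1 he').1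
    · exact hee rfl
  · have b1 : #((Z.filter fun e => e.2 ∈ W).image Prod.snd) ≤ #(Z.filter fun e => e.2 ∈ W) :=
      card_image_le
    have b2 : #(Z.filter fun e => e.2 ∈ W) ≤ #E := by
      refine card_le_card_of_injOn Prod.fst (fun e he => e1 e (mem_filter.1 he).1) ?_
      intro e he e' he' hee
      obtain ⟨a1, a2⟩ := mem_filter.1 he
      obtain ⟨a3, a4⟩ := mem_filter.1 he'
      refine Prod.ext hee ?_
      by_contra hn
      have h3 := two_le_dg H a2 a4 hn (hp e (hZ a1)).2.1 (hee ▸ (hp e' (hZ a3)).2.1)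
      have h4 := h1 _ (hp e (hZ a1)).1
      omega
    have b3 : #E * 2 ≤ ∑ e ∈ Z, #(E.filter fun v => e.1 = v ∨ e.2 = v) := by
      refine (card_nsmul_le_sum _ _ 2 h2).trans (le_of_eq ?_)
      simp only [card_filter]
      exact sum_comm
    have b4 : ∑ e ∈ Z, #(E.filter fun v => e.1 = v ∨ e.2 = v) + #(Z.filter fun e => e.2 ∈ W) ≤
        #Z * 2 := by
      rw [card_filter (fun e : V × V => e.2 ∈ W), ← sum_add_distrib]
      refine sum_le_card_nsmul _ _ 2 fun e _ => ?_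
      split_ifs with hw
      · have : #(E.filter fun v => e.1 = v ∨ e.2 = v) ≤ #({e.1} : Finset V) :=
          card_le_card fun v hv => by
            obtain ⟨a1, a2 | a2⟩ := mem_filter.1 hv
            · exact mem_singleton.2 a2.symm
            · exact (hUW v ((hE v).1 a1).1 (a2 ▸ hw)).elim
        rw [card_singleton] at this
        omega
      · have : #(E.filter fun v => e.1 = v ∨ e.2 = v) ≤ #({e.1, e.2} : Finset V) :=
          card_le_card fun v hv => by
            obtain ⟨-, a2 | a2⟩ := mem_filter.1 hv <;> simp [← a2]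
        exact this.trans card_le_two
    omega

end Pool.Agent.Spl
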