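import Pool.Agent.Lib.MP_c89be3_co.Cl.Defs

/-! Peeling to a core. -/

namespace Pool.Agent.Spl

open Finset

theorem peel_st : PeelSt := by
  intro V _ H S W d
  induction S using Finset.strongInduction with
  | H S ih =>
    intro hSW
    by_cases h : ∀ v ∈ S, d < dg H v (S ∪ W)
    · exact ⟨S, Subset.rfl, h, le_rfl⟩
    · push Not at h
      obtain ⟨v, hv, hd⟩ := h
      obtain ⟨C, c1, c2, c3⟩ := ih (S.erase v) (erase_ssubset hv)
        (hSW.mono_left (erase_subset v S))
      refine ⟨C, c1.trans (erase_subset v S), c2, ?_⟩
      have e : S ∪ W = {v} ∪ (S.erase v ∪ W) := by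
        rw [← union_assoc, ← insert_eq, insert_erase hv]
      have hn : v ∉ S.erase v ∪ W := by
        rw [mem_union, not_or]
        exact ⟨notMem_erase v S, disjoint_left.1 hSW hv⟩
      have e2 := tw_union H (disjoint_singleton_left.2 hn)
      rw [← e, tw_singleton, sum_singleton] at e2
      have m : dg H v (S.erase v ∪ W) ≤ dg H v (S ∪ W) :=
        dg_mono H v (union_subset_union_left (erase_subset v S))
      have e3 : #S = #(S.erase v) + 1 := (card_erase_add_one hv).symm
      rw [e3, mul_add, mul_one]
      omega

end Pool.Agent.Spl
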