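import Pool.Agent.Lib.MP_c89be3_co.Cl.Defs

namespace Pool.Agent.Spl

open Finset

namespace Stabx

variable {V : Type} [DecidableEq V]

theorem two_nbrs (H : SimpleGraph V) (S W : Finset V) (h : ∀ v ∈ S, 2 ≤ dg H v W) :
    ∃ N ⊆ W, #N ≤ 2 * #S ∧ ∀ v ∈ S, 2 ≤ dg H v N := by
  induction S using Finset.induction_on with
  | empty => exact ⟨∅, empty_subset _, by simp, by simp⟩
  | insert v S hv ih =>
    obtain ⟨N, hN, hc, hd⟩ := ih fun w hw => h w (mem_insert_of_mem hw)
    obtain ⟨a, ha, b, hb, hab, h1, h2⟩ := exists_two H (h v (mem_insert_self v S))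
    refine ⟨insert a (insert b N), ?_, ?_, ?_⟩
    · exact insert_subset ha (insert_subset hb hN)
    · have c1 := card_insert_le a (insert b N)
      have c2 := card_insert_le b N
      rw [card_insert_of_notMem hv]
      omega
    · intro w hw
      rcases mem_insert.1 hw with rfl | hw
      · exact two_le_dg H (mem_insert_self _ _) (mem_insert_of_mem (mem_insert_self _ _)) hab h1 h2
      · exact (hd w hw).trans
          (dg_mono H w ((subset_insert b N).trans (subset_insert a _)))

theorem clique_of_tw (H : SimpleGraph V) (W : Finset V) (h : #W * #W ≤ tw H W + #W) :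
    ∀ a ∈ W, ∀ b ∈ W, a ≠ b → H.Adj a b := by
  classical
  intro a ha b hb hab
  by_contra hn
  have h1 : dg H a W + 1 < #W := by
    have hs : W.filter (H.Adj a) ⊆ (W.erase a).erase b := fun w hw => by
      rw [mem_filter] at hw
      refine mem_erase.2 ⟨?_, mem_erase.2 ⟨hw.2.ne', hw.1⟩⟩
      rintro rfl
      exact hn hw.2
    have c1 := card_le_card hs
    have hb' : b ∈ W.erase a := mem_erase.2 ⟨hab.symm, hb⟩
    have c2 := card_erase_add_one hb'
    have c3 := card_erase_add_one ha
    have c4 : dg H a W = #(W.filter (H.Adj a)) := by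
      unfold dg
      congr
    omega
  have h2 : ∑ v ∈ W, (dg H v W + 1) < ∑ _v ∈ W, #W :=
    sum_lt_sum (fun v hv => dg_self_le H hv) ⟨a, ha, h1⟩
  simp only [sum_add_distrib, sum_const, smul_eq_mul, mul_one] at h2
  unfold tw at h
  omega

theorem small_X {n x d t m : ℕ} (hn : 10000000000 ≤ n) (hd : d = n / 4000) (ht : t = n / 200)
    (hm : m ≤ 2 * n + 2) (h : x * (d * t) ≤ t * (d * t) + 2 * m * m) : 100 * x ≤ n := by
  have h1 : n ≤ 4001 * d := by omega
  have h2 : n ≤ 201 * t := by omega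
  have h3 : n * n ≤ 804201 * (d * t) := by
    calc n * n ≤ (4001 * d) * (201 * t) := Nat.mul_le_mul h1 h2
      _ = 804201 * (d * t) := by ring
  have h4 : m * m ≤ 9 * (n * n) := by
    calc m * m ≤ (3 * n) * (3 * n) := Nat.mul_le_mul (by omega) (by omega)
      _ = 9 * (n * n) := by ring
  have h5 : x * (d * t) ≤ (t + 14475618) * (d * t) := by
    have e : (t + 14475618) * (d * t) = t * (d * t) + 14475618 * (d * t) := by ring
    have e2 : 2 * m * m = 2 * (m * m) := by ring
    omega
  have hpos : 0 < d * t := Nat.mul_pos (by omega) (by omega)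
  have h6 := Nat.le_of_mul_le_mul_right h5 hpos
  omega

theorem big_D {n d m a : ℕ} (hn : 10000000000 ≤ n) (hd : d = n / 4000)
    (h1 : (n + 1) * n + 2 * (n + 2) ≤ a + 2 * (2 * d) * (2 * n + 2)) (h2 : a + m ≤ m * m) :
    997 * n ≤ 1000 * m := by
  by_contra hc
  have hc' : 1000 * m ≤ 997 * n := by omega
  have h3 : (1000 * m) * (1000 * m) ≤ (997 * n) * (997 * n) := Nat.mul_le_mul hc' hc'
  have h4 : (4000 * d) * (2 * n + 2) ≤ n * (2 * n + 2) := Nat.mul_le_mul_right _ (by omega)
  have e1 : (1000 * m) * (1000 * m) = 1000000 * (m * m) := by ring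
  have e2 : (997 * n) * (997 * n) = 994009 * (n * n) := by ring
  have e3 : (4000 * d) * (2 * n + 2) = 1000 * (2 * (2 * d) * (2 * n + 2)) := by ring
  have e4 : n * (2 * n + 2) = 2 * (n * n) + 2 * n := by ring
  have e5 : (n + 1) * n = n * n + n := by ring
  omega

theorem full_W {n w u a : ℕ} (hn : 10000000000 ≤ n) (hw : 997 * n ≤ 1000 * w) (hw' : w ≤ n + 1)
    (hu : u + w = 2 * n + 2) (h1 : (n + 1) * n + 2 * (n + 2) < a + 2 * (u + 2))
    (h2 : a + w ≤ w * w) : w = n + 1 := by
  by_contra hc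
  obtain ⟨k, rfl⟩ : ∃ k, n = w + k := ⟨n - w, by omega⟩
  have e1 : (w + k + 1) * (w + k) = w * w + 2 * (w * k) + k * k + w + k := by ring
  have h3 : 3 * k ≤ w * k := Nat.mul_le_mul_right k (by omega)
  omega

end Stabx

open Stabx in
theorem stab_st (hD : DomSt) (hP : PeelSt) (hQ : ParSt) : StabSt := by
  refine ⟨10000000000, fun n hn V _ _ H hV htw hno => ?_⟩
  obtain ⟨d, hd⟩ : ∃ d, d = n / 4000 := ⟨_, rfl⟩
  obtain ⟨t, ht⟩ : ∃ t, t = n / 200 := ⟨_, rfl⟩
  obtain ⟨D, -, hD1, hD2⟩ := hP V H univ ∅ (2 * d) (disjoint_empty_right _)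
  rw [union_empty] at hD1 hD2
  rw [union_empty, card_univ, hV] at hD2
  obtain ⟨X, hXD, hX1, hX2⟩ := hD V H D d t (by omega) fun v hv => (hD1 v hv).le
  have hDle : #D ≤ 2 * n + 2 := by rw [← hV]; exact card_le_univ D
  have hX : 100 * #X ≤ n := small_X hn hd ht hDle hX2
  have hD3 : #D ≤ n + 1 := by
    by_contra hc
    obtain ⟨B, h1, h2, h3⟩ := exists_subsuperset_card_eq hXD (n := n + 2) (by omega) (by omega)
    exact hno B h3 fun v hv => (hX1 v (h2 hv)).trans (dg_mono H v h1)
  have hD4 : 997 * n ≤ 1000 * #D := big_D hn hd (a := tw H D) (by omega) (tw_le H D)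
  obtain ⟨W, hW, hmax⟩ := Set.exists_max_image
    {W : Finset V | D ⊆ W ∧ #W ≤ n + 1 ∧ ∀ v ∈ W, 2 ≤ dg H v W} (fun W => #W) (Set.toFinite _)
    ⟨D, Subset.refl _, hD3, fun v hv => (hX1 v hv).trans (dg_mono H v hXD)⟩
  obtain ⟨hDW, hW1, hW2⟩ := hW
  have hbig : ∀ W' : Finset V, W ⊆ W' → #W < #W' → (∀ v ∈ W', 2 ≤ dg H v W') → n + 2 ≤ #W' := by
    intro W' h1 h2 h3
    by_contra hc
    have := hmax W' ⟨hDW.trans h1, by omega, h3⟩
    omega
  have hDc := card_le_card hDW
  have hUc : #Wᶜ + #W = 2 * n + 2 := by rw [card_compl_add_card, hV]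
  have hU : ∀ u ∈ Wᶜ, dg H u W ≤ 1 := by
    intro u hu
    by_contra hc
    have hu' : u ∉ W := mem_compl.1 hu
    have h3 : ∀ v ∈ insert u W, 2 ≤ dg H v (insert u W) := by
      intro v hv
      refine le_trans ?_ (dg_mono H v (subset_insert u W))
      rcases mem_insert.1 hv with rfl | hv
      · omega
      · exact hW2 v hv
    have hc1 := card_insert_of_notMem hu'
    have := hbig _ (subset_insert u W) (by omega) h3
    exact hno _ (by omega) h3
  have hlt : tw H univ < tw H W + 2 * (#Wᶜ + 2) := by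
    by_contra hc
    have e : Wᶜ ∪ W = univ := by rw [union_comm, union_compl]
    obtain ⟨E, hE, T, hT, hne, hE1, hE2⟩ := hQ V H Wᶜ W disjoint_compl_left hU
      (by rw [e]; omega)
    have hdis : Disjoint W E := disjoint_compl_right.mono_right hE
    have hc1 : #(W ∪ E) = #W + #E := card_union_of_disjoint hdis
    have hc2 := card_pos.2 hne
    have hET : E ∪ T ⊆ W ∪ E :=
      union_subset subset_union_right (hT.trans subset_union_left)
    have h3 : n + 2 ≤ #(W ∪ E) := by
      refine hbig _ subset_union_left (by omega) fun v hv => ?_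
      rcases mem_union.1 hv with hv | hv
      · exact (hW2 v hv).trans (dg_mono H v subset_union_left)
      · exact (hE1 v hv).trans (dg_mono H v hET)
    obtain ⟨N, hN, hN1, hN2⟩ := two_nbrs H (W \ D) W fun v hv => hW2 v (mem_sdiff.1 hv).1
    have hs : #(W \ D) + #D = #W := card_sdiff_add_card_eq_card hDW
    have hY : (E ∪ T) ∪ (N ∪ X) ⊆ W ∪ E :=
      union_subset hET ((union_subset hN (hXD.trans hDW)).trans subset_union_left)
    have c1 := card_union_le (E ∪ T) (N ∪ X)
    have c2 := card_union_le E T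
    have c3 := card_union_le N X
    obtain ⟨B, h1, h2, h4⟩ := exists_subsuperset_card_eq hY (n := n + 2) (by omega) h3
    refine hno B h4 fun v hv => ?_
    rcases mem_union.1 (h2 hv) with hv | hv
    · by_cases hvD : v ∈ D
      · exact (hX1 v hvD).trans
          (dg_mono H v ((subset_union_right.trans subset_union_right).trans h1))
      · exact (hN2 v (mem_sdiff.2 ⟨hv, hvD⟩)).trans
          (dg_mono H v ((subset_union_left.trans subset_union_right).trans h1))
    · exact (hE1 v hv).trans (dg_mono H v (subset_union_left.trans h1))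
  have hle := tw_le H W
  have hw : #W = n + 1 := full_W hn (by omega) hW1 hUc (a := tw H W) (by omega) hle
  obtain ⟨p, hp⟩ := tw_even H W
  obtain ⟨q, hq⟩ := tw_even H univ
  obtain ⟨r, hr⟩ : Even ((n + 1) * n) := by
    rw [mul_comm]; exact Nat.even_mul_succ_self n
  have e1 : #W * #W = (n + 1) * n + (n + 1) := by rw [hw]; ring
  exact ⟨W, hw, clique_of_tw H W (by omega), by omega⟩

end Pool.Agent.Spl
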